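import Mathlib
import Pool.Agent.Lib.MP_85963d_gt.Interfaces

/-!
# The shift lemma, algebraic part (Paper.md (3.1)-(3.4))

A `Chain` is a sequence of pairs of real functions `P b + i Q b` of weight `b` satisfying the
relation `η₊ Ψ_b = -η₋ Ψ_{b+2}`.
-/

set_option autoImplicit false

open MeasureTheory Set Filter Topology Quaternion
open scoped Real ContDiff

namespace Pool.Agent.MP85963d.H32

open SF

/-- the pairing as a bilinear map -/
noncomputable def ipB : SF →ₗ[ℝ] SF →ₗ[ℝ] ℝ :=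
  LinearMap.mk₂ ℝ (fun F G : SF => ip F G) ip_add_left ip_smul_left
    (fun K F G => ip_add_right F G K) (fun c K F => ip_smul_right c F K)

theorem ipB_apply (F G : SF) : ipB F G = ip F G := rfl

theorem ipB_comm (F G : SF) : ipB F G = ipB G F := ip_comm _ _

theorem ipB_self (F : SF) : ipB F F = nrm F ^ 2 := (nrm_sq' _).symm

theorem ipB_DX (F G : SF) : ipB (DX F) G = - ipB F (DX G) := ip_DX F G
theorem ipB_DV (F G : SF) : ipB (DV F) G = - ipB F (DV G) := ip_DV F G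
theorem ipB_DH (F G : SF) : ipB (DH F) G = - ipB F (DH G) := ip_DH F G

/-- the norm of `2 η₊ (P + iQ)` for a function of weight `b` -/
theorem eta_plus (hC : CasFacts) (P Q : SF) (b : ℝ) (hP : DV P = -(b • Q)) (hQ : DV Q = b • P) :
    ipB (DX P + DH Q) (DX P + DH Q) + ipB (DX Q - DH P) (DX Q - DH P)
      = -(ipB (Lap P) P) - ipB (Lap Q) Q - b * (b + 1) * (ipB P P + ipB Q Q) := by
  have f1 : ipB (DX P) (DX P) = - ipB (DX (DX P)) P := by rw [ipB_DX (DX P) P, neg_neg]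
  have f2 : ipB (DH P) (DH P) = - ipB (DH (DH P)) P := by rw [ipB_DH (DH P) P, neg_neg]
  have f3 : ipB (DX Q) (DX Q) = - ipB (DX (DX Q)) Q := by rw [ipB_DX (DX Q) Q, neg_neg]
  have f4 : ipB (DH Q) (DH Q) = - ipB (DH (DH Q)) Q := by rw [ipB_DH (DH Q) Q, neg_neg]
  have f5 : ipB (DX P) (DH Q) = - ipB (DH (DX P)) Q := by rw [ipB_DH (DX P) Q, neg_neg]
  have f6 : ipB (DH P) (DX Q) = - ipB (DX (DH P)) Q := by rw [ipB_DX (DH P) Q, neg_neg]
  have f7 : ipB (DX (DH P)) Q - ipB (DH (DX P)) Q = - b * ipB Q Q := by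
    have := congrArg (fun F => ipB F Q) (DX_DH P)
    simp only [map_sub, LinearMap.sub_apply] at this
    rw [this, hP]
    simp
  have f8 : b * ipB P P = b * ipB Q Q := by
    have h1 : ipB (DV P) Q = - ipB P (DV Q) := ipB_DV P Q
    rw [hP, hQ] at h1
    simp only [map_neg, map_smul, LinearMap.neg_apply, LinearMap.smul_apply, smul_eq_mul] at h1
    linarith
  have v1 : ipB (DV (DV P)) P = - (b * b) * ipB P P := by
    rw [hP, map_neg, Derivation.map_smul, hQ]
    simp only [map_neg, map_smul, LinearMap.neg_apply, LinearMap.smul_apply, smul_eq_mul]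
    ring
  have v2 : ipB (DV (DV Q)) Q = - (b * b) * ipB Q Q := by
    rw [hQ, Derivation.map_smul, hP]
    simp only [map_neg, map_smul, LinearMap.neg_apply, LinearMap.smul_apply, smul_eq_mul]
    ring
  have l1 : ipB (Lap P) P = ipB (DX (DX P)) P + ipB (DV (DV P)) P + ipB (DH (DH P)) P := by
    rw [hC.right]; simp
  have l2 : ipB (Lap Q) Q = ipB (DX (DX Q)) Q + ipB (DV (DV Q)) Q + ipB (DH (DH Q)) Q := by
    rw [hC.right]; simp
  simp only [map_add, map_sub, LinearMap.add_apply, LinearMap.sub_apply]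
  rw [ipB_comm (DH Q) (DX P), ipB_comm (DX Q) (DH P), l1, l2, v1, v2, f1, f2, f3, f4, f5, f6]
  linear_combination 2 * f7 + f8

/-- the norm of `2 η₋ (P + iQ)` for a function of weight `b` -/
theorem eta_minus (hC : CasFacts) (P Q : SF) (b : ℝ) (hP : DV P = -(b • Q)) (hQ : DV Q = b • P) :
    ipB (DX P - DH Q) (DX P - DH Q) + ipB (DX Q + DH P) (DX Q + DH P)
      = -(ipB (Lap P) P) - ipB (Lap Q) Q - b * (b - 1) * (ipB P P + ipB Q Q) := by
  have h := eta_plus hC P (-Q) (-b) (by rw [hP]; simp) (by rw [map_neg, hQ]; simp)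
  simp only [map_neg, LinearMap.neg_apply, neg_neg] at h
  have e1 : DX P + -DH Q = DX P - DH Q := by abel
  have e2 : -DX Q - DH P = -(DX Q + DH P) := by abel
  rw [e1, e2] at h
  simp only [map_neg, LinearMap.neg_apply, neg_neg] at h
  rw [h]; ring

/-- relations between the weight components of an e-function -/
structure Chain (P Q : ℕ → SF) : Prop where
  vP : ∀ b : ℕ, DV (P b) = -((b : ℝ) • Q b)
  vQ : ∀ b : ℕ, DV (Q b) = (b : ℝ) • P b
  r1 : ∀ b : ℕ, DX (P b) + DH (Q b) = -(DX (P (b + 2)) - DH (Q (b + 2)))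
  r2 : ∀ b : ℕ, DX (Q b) - DH (P b) = -(DX (Q (b + 2)) + DH (P (b + 2)))

/-- squared norms of order `0`, `1`, `2` -/
noncomputable def D0 (P Q : SF) : ℝ := ipB P P + ipB Q Q
noncomputable def D1 (P Q : SF) : ℝ := -(ipB (Lap P) P) - ipB (Lap Q) Q
noncomputable def D2 (P Q : SF) : ℝ := ipB (Lap P) (Lap P) + ipB (Lap Q) (Lap Q)

theorem ipB_self_nonneg (F : SF) : 0 ≤ ipB F F := by rw [ipB_self]; positivity

theorem D0_nonneg (P Q : SF) : 0 ≤ D0 P Q := add_nonneg (ipB_self_nonneg _) (ipB_self_nonneg _)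

theorem D2_nonneg (P Q : SF) : 0 ≤ D2 P Q := add_nonneg (ipB_self_nonneg _) (ipB_self_nonneg _)

theorem Chain.low (hC : CasFacts) {P Q : ℕ → SF} (h : Chain P Q) (b : ℕ) :
    (b : ℝ) * (b + 1) * D0 (P b) (Q b) ≤ D1 (P b) (Q b) := by
  have h1 := eta_plus hC (P b) (Q b) b (h.vP b) (h.vQ b)
  have h2 := add_nonneg (ipB_self_nonneg (DX (P b) + DH (Q b)))
    (ipB_self_nonneg (DX (Q b) - DH (P b)))
  rw [h1] at h2
  simp only [D0, D1]; linarith

theorem Chain.D1_nonneg (hC : CasFacts) {P Q : ℕ → SF} (h : Chain P Q) (b : ℕ) :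
    0 ≤ D1 (P b) (Q b) :=
  le_trans (mul_nonneg (by positivity) (D0_nonneg _ _)) (h.low hC b)

theorem Chain.eq (hC : CasFacts) {P Q : ℕ → SF} (h : Chain P Q) (b : ℕ) :
    D1 (P (b + 2)) (Q (b + 2)) - ((b : ℝ) + 2) * (b + 1) * D0 (P (b + 2)) (Q (b + 2))
      = D1 (P b) (Q b) - (b : ℝ) * (b + 1) * D0 (P b) (Q b) := by
  have h1 := eta_plus hC (P b) (Q b) b (h.vP b) (h.vQ b)
  have h2 := eta_minus hC (P (b + 2)) (Q (b + 2)) ((b + 2 : ℕ) : ℝ) (h.vP _) (h.vQ _)
  rw [h.r1, h.r2] at h1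
  simp only [map_neg, LinearMap.neg_apply, neg_neg] at h1
  rw [h1] at h2
  simp only [D0, D1]
  push_cast at h2
  linear_combination (-1) * h2

theorem Chain.step1 (hC : CasFacts) {P Q : ℕ → SF} (h : Chain P Q) (b : ℕ) :
    D1 (P (b + 2)) (Q (b + 2)) ≤ ((b : ℝ) + 3) / 2 * D1 (P b) (Q b) := by
  have h1 := h.eq hC b
  have h2 := h.low hC (b + 2)
  have h3 := h.low hC b
  have h4 := D0_nonneg (P b) (Q b)
  push_cast at h2
  have hb : (0 : ℝ) ≤ b := Nat.cast_nonneg b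
  set x := D1 (P (b + 2)) (Q (b + 2)) with hx
  set y := D0 (P (b + 2)) (Q (b + 2)) with hy
  set u := D1 (P b) (Q b) with hu
  set v := D0 (P b) (Q b) with hv
  -- `x - (b+2)(b+1) y ≤ u`, `(b+2)(b+3) y ≤ x`
  have h5 : x - ((b : ℝ) + 2) * (b + 1) * y ≤ u := by
    rw [h1]
    have : 0 ≤ (b : ℝ) * (b + 1) * v := by positivity
    linarith
  have h6 : ((b : ℝ) + 2) * (b + 1) * y * (b + 3) ≤ (b + 1) * x := by
    have := mul_le_mul_of_nonneg_left h2 (show (0 : ℝ) ≤ b + 1 by linarith)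
    nlinarith
  have h7 : (x - ((b : ℝ) + 2) * (b + 1) * y) * (b + 3) ≤ u * (b + 3) :=
    mul_le_mul_of_nonneg_right h5 (by linarith)
  nlinarith

/-- left derivatives of a chain form a chain -/
theorem Chain.dz {P Q : ℕ → SF} (h : Chain P Q) (a : Fin 3) :
    Chain (fun b => DZ a (P b)) (fun b => DZ a (Q b)) where
  vP b := by rw [DV_DZ, h.vP, map_neg, Derivation.map_smul]
  vQ b := by rw [DV_DZ, h.vQ, Derivation.map_smul]
  r1 b := by
    rw [DX_DZ, DH_DZ, DX_DZ, DH_DZ, ← map_add, ← map_sub, ← map_neg, h.r1]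
  r2 b := by
    rw [DX_DZ, DH_DZ, DX_DZ, DH_DZ, ← map_add, ← map_sub, ← map_neg, h.r2]

theorem sum_D1_dz (hC : CasFacts) (P Q : SF) :
    ∑ a : Fin 3, D1 (DZ a P) (DZ a Q) = D2 P Q := by
  have key : ∀ F : SF, ∑ a : Fin 3, -(ipB (Lap (DZ a F)) (DZ a F)) = ipB (Lap F) (Lap F) := by
    intro F
    have hz : ∀ a : Fin 3, -(ipB (Lap (DZ a F)) (DZ a F)) = ipB (Lap F) (DZ a (DZ a F)) := by
      intro a
      have h1 : Lap (DZ a F) = DZ a (Lap F) := by
        fin_cases a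
        · exact hC.comm 3 F
        · exact hC.comm 4 F
        · exact hC.comm 5 F
      rw [h1, ipB_apply, ip_DZ, neg_neg, ipB_apply]
    simp only [hz]
    rw [← map_sum]
    have hL : ∑ a : Fin 3, DZ a (DZ a F) = Lap F := by rw [Lap_eq, Fin.sum_univ_three]
    rw [hL]
  simp only [D1, D2]
  have e : ∀ a : Fin 3, -(ipB (Lap (DZ a P)) (DZ a P)) - ipB (Lap (DZ a Q)) (DZ a Q)
      = -(ipB (Lap (DZ a P)) (DZ a P)) + -(ipB (Lap (DZ a Q)) (DZ a Q)) := fun a => by ring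
  simp only [e]
  rw [Finset.sum_add_distrib, key, key]

theorem Chain.step2 (hC : CasFacts) {P Q : ℕ → SF} (h : Chain P Q) (b : ℕ) :
    D2 (P (b + 2)) (Q (b + 2)) ≤ ((b : ℝ) + 3) / 2 * D2 (P b) (Q b) := by
  rw [← sum_D1_dz hC, ← sum_D1_dz hC, Finset.mul_sum]
  exact Finset.sum_le_sum fun a _ => (h.dz a).step1 hC b

/-- all components are controlled by the component of weight `0` -/
theorem chain_bounds (hC : CasFacts) (a : ℕ) (ha : Even a) : ∃ K : ℝ, 1 ≤ K ∧
    ∀ P Q : ℕ → SF, Chain P Q → D1 (P a) (Q a) ≤ K * D1 (P 0) (Q 0) ∧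
      D2 (P a) (Q a) ≤ K * D2 (P 0) (Q 0) := by
  obtain ⟨k, rfl⟩ := ha
  induction k with
  | zero => exact ⟨1, le_rfl, fun P Q h => by simp⟩
  | succ k ih =>
    obtain ⟨K, hK, h⟩ := ih
    refine ⟨(((k + k : ℕ) : ℝ) + 3) / 2 * K, ?_, fun P Q hPQ => ?_⟩
    · have : (1 : ℝ) ≤ (((k + k : ℕ) : ℝ) + 3) / 2 := by
        have : (0 : ℝ) ≤ ((k + k : ℕ) : ℝ) := Nat.cast_nonneg _
        linarith
      nlinarith
    · have e : k + 1 + (k + 1) = k + k + 2 := by ring
      rw [e]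
      obtain ⟨h1, h2⟩ := h P Q hPQ
      have hc : (0 : ℝ) ≤ (((k + k : ℕ) : ℝ) + 3) / 2 := by positivity
      constructor
      · refine (hPQ.step1 hC (k + k)).trans ?_
        rw [mul_assoc]
        exact mul_le_mul_of_nonneg_left h1 hc
      · refine (hPQ.step2 hC (k + k)).trans ?_
        rw [mul_assoc]
        exact mul_le_mul_of_nonneg_left h2 hc

/-! ### norms -/

theorem nrm_le_of_sq {F : SF} {K : ℝ} (hK : 0 ≤ K) (h : nrm F ^ 2 ≤ K ^ 2) : nrm F ≤ K :=
  (le_abs_self _).trans (abs_le_of_sq_le_sq h hK)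

theorem abs_ipB_le (F G : SF) : |ipB F G| ≤ nrm F * nrm G := abs_ip_le F.continuousOn G.continuousOn

theorem nrm_add_le (F G : SF) : nrm (F + G : SF) ≤ nrm F + nrm G := by
  apply nrm_le_of_sq (add_nonneg (nrm_nonneg _) (nrm_nonneg _))
  have h1 : nrm (F + G : SF) ^ 2 = nrm F ^ 2 + 2 * ipB F G + nrm G ^ 2 := by
    rw [← ipB_self, ← ipB_self, ← ipB_self]
    simp only [map_add, LinearMap.add_apply]
    rw [ipB_comm G F]; ring
  have h2 := (le_abs_self _).trans (abs_ipB_le F G)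
  rw [h1]; nlinarith

theorem nrm_smul (c : ℝ) (F : SF) : nrm (c • F : SF) = |c| * nrm F := by
  have h1 : nrm (c • F : SF) ^ 2 = (|c| * nrm F) ^ 2 := by
    rw [← ipB_self, mul_pow, sq_abs, ← ipB_self]
    simp only [map_smul, LinearMap.smul_apply, smul_eq_mul]
    ring
  exact (sq_eq_sq₀ (nrm_nonneg _) (mul_nonneg (abs_nonneg _) (nrm_nonneg _))).1 h1

theorem nrm_neg (F : SF) : nrm (-F : SF) = nrm F := by
  have := nrm_smul (-1) F
  simpa using this

theorem nrm_sub_le (F G : SF) : nrm (F - G : SF) ≤ nrm F + nrm G := by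
  have := nrm_add_le F (-G)
  rwa [nrm_neg, ← sub_eq_add_neg] at this

theorem nrm_mul_le {B : ℝ} {w : SF} (hw : ∀ x : ℍ, |w x| ≤ B) (F : SF) :
    nrm (w * F : SF) ≤ B * nrm F := by
  have hB : 0 ≤ B := (abs_nonneg _).trans (hw 0)
  apply nrm_le_of_sq (mul_nonneg hB (nrm_nonneg _))
  rw [mul_pow, nrm_sq, nrm_sq, ← integral_const_mul]
  apply setIntegral_mono_on
  · exact integrableOn_shell ((w * F).continuousOn.pow 2)
  · exact (integrableOn_shell (F.continuousOn.pow 2)).const_mul _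
  · exact measurableSet_shell
  · intro x _
    rw [mul_apply, mul_pow]
    refine mul_le_mul_of_nonneg_right ?_ (sq_nonneg _)
    rw [← sq_abs]
    exact pow_le_pow_left₀ (abs_nonneg _) (hw x) 2

theorem abs_ipB_mul_le {B : ℝ} {w : SF} (hw : ∀ x : ℍ, |w x| ≤ B) {F G : SF} {K K' : ℝ}
    (hF : nrm F ≤ K) (hG : nrm G ≤ K') : |ipB (w * F) G| ≤ B * (K * K') := by
  have hB : 0 ≤ B := (abs_nonneg _).trans (hw 0)
  have hK : 0 ≤ K := (nrm_nonneg _).trans hF
  calc |ipB (w * F) G| ≤ nrm (w * F : SF) * nrm G := abs_ipB_le _ _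
    _ ≤ (B * nrm F) * nrm G := mul_le_mul_of_nonneg_right (nrm_mul_le hw F) (nrm_nonneg _)
    _ = B * (nrm F * nrm G) := by ring
    _ ≤ B * (K * K') := by
        apply mul_le_mul_of_nonneg_left _ hB
        exact mul_le_mul hF hG (nrm_nonneg _) hK

/-! ### the main identity -/

/-- real part of `∫ w F conj G` -/
noncomputable def Rw (w F₁ F₂ G₁ G₂ : SF) : ℝ := ipB (w * F₁) G₁ + ipB (w * F₂) G₂

theorem key_identity (w A₁ A₂ B₁ B₂ : SF) (c : ℝ) (h1 : DV A₁ = -(c • A₂)) (h2 : DV A₂ = c • A₁) :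
    Rw w (DX A₁ + DH A₂) (DX A₂ - DH A₁) (DX B₁ + DH B₂) (DX B₂ - DH B₁)
      - Rw w (DX A₁ - DH A₂) (DX A₂ + DH A₁) (DX B₁ - DH B₂) (DX B₂ + DH B₁)
    = 2 * (- ipB (DH w * DX A₁) B₂ + ipB (DX w * DH A₁) B₂ - ipB (DX w * DH A₂) B₁
        + ipB (DH w * DX A₂) B₁) - 2 * c * (ipB (w * A₂) B₂ + ipB (w * A₁) B₁) := by
  have p1 : ipB (w * DX A₁) (DH B₂) = - ipB (w * DH (DX A₁)) B₂ - ipB (DH w * DX A₁) B₂ := by
    have := ipB_DH (w * DX A₁) B₂
    rw [Derivation.leibniz, smul_eq_mul, smul_eq_mul, mul_comm (DX A₁) (DH w)] at this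
    simp only [map_add, LinearMap.add_apply] at this
    linarith
  have p2 : ipB (w * DH A₁) (DX B₂) = - ipB (w * DX (DH A₁)) B₂ - ipB (DX w * DH A₁) B₂ := by
    have := ipB_DX (w * DH A₁) B₂
    rw [Derivation.leibniz, smul_eq_mul, smul_eq_mul, mul_comm (DH A₁) (DX w)] at this
    simp only [map_add, LinearMap.add_apply] at this
    linarith
  have p3 : ipB (w * DH A₂) (DX B₁) = - ipB (w * DX (DH A₂)) B₁ - ipB (DX w * DH A₂) B₁ := by
    have := ipB_DX (w * DH A₂) B₁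
    rw [Derivation.leibniz, smul_eq_mul, smul_eq_mul, mul_comm (DH A₂) (DX w)] at this
    simp only [map_add, LinearMap.add_apply] at this
    linarith
  have p4 : ipB (w * DX A₂) (DH B₁) = - ipB (w * DH (DX A₂)) B₁ - ipB (DH w * DX A₂) B₁ := by
    have := ipB_DH (w * DX A₂) B₁
    rw [Derivation.leibniz, smul_eq_mul, smul_eq_mul, mul_comm (DX A₂) (DH w)] at this
    simp only [map_add, LinearMap.add_apply] at this
    linarith
  have c1 : ipB (w * DX (DH A₁)) B₂ - ipB (w * DH (DX A₁)) B₂ = - c * ipB (w * A₂) B₂ := by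
    have e : w * DX (DH A₁) - w * DH (DX A₁) = -(c • (w * A₂)) := by
      apply ext'
      intro x _
      have h := congrArg (fun F : SF => F x) (DX_DH A₁)
      simp only [h1, sub_apply, neg_apply, smul_apply] at h
      simp only [sub_apply, neg_apply, smul_apply, mul_apply]
      linear_combination (w x) * h
    have := congrArg (fun F => ipB F B₂) e
    simp only [map_sub, map_neg, map_smul, LinearMap.sub_apply, LinearMap.neg_apply,
      LinearMap.smul_apply, smul_eq_mul] at this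
    linarith
  have c2 : ipB (w * DX (DH A₂)) B₁ - ipB (w * DH (DX A₂)) B₁ = c * ipB (w * A₁) B₁ := by
    have e : w * DX (DH A₂) - w * DH (DX A₂) = c • (w * A₁) := by
      apply ext'
      intro x _
      have h := congrArg (fun F : SF => F x) (DX_DH A₂)
      simp only [h2, sub_apply, smul_apply] at h
      simp only [sub_apply, smul_apply, mul_apply]
      linear_combination (w x) * h
    have := congrArg (fun F => ipB F B₁) e
    simp only [map_sub, map_smul, LinearMap.sub_apply, LinearMap.smul_apply, smul_eq_mul] at this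
    linarith
  simp only [Rw, mul_add, mul_sub, map_add, map_sub, LinearMap.add_apply, LinearMap.sub_apply]
  linear_combination 2 * p1 - 2 * p2 + 2 * p3 - 2 * p4 + 2 * c1 - 2 * c2

end Pool.Agent.MP85963d.H32
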