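import Mathlib
import Pool.Agent.Lib.MP_85963d_gt.H32.Chain

/-!
# The shift lemma for chains (Paper.md (3.4)), real parts
-/

set_option autoImplicit false

open MeasureTheory Set Filter Topology Quaternion
open scoped Real ContDiff

namespace Pool.Agent.MP85963d.H32

open SF

theorem DV_DX (F : SF) : DV (DX F) = DX (DV F) + DH F := by
  have := DX_DV F
  rw [sub_eq_iff_eq_add] at this
  rw [this]; abel

theorem DV_DH' (F : SF) : DV (DH F) = DH (DV F) - DX F := by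
  have := DV_DH F
  rw [sub_eq_iff_eq_add] at this
  rw [this]; abel

/-- `A = 2 η₋ Ψ_{a+2}` -/
noncomputable def A1 (P Q : ℕ → SF) (a : ℕ) : SF := DX (P (a + 2)) - DH (Q (a + 2))
noncomputable def A2 (P Q : ℕ → SF) (a : ℕ) : SF := DX (Q (a + 2)) + DH (P (a + 2))

theorem Chain.A1_eq {P Q : ℕ → SF} (h : Chain P Q) (a : ℕ) : A1 P Q a = -(DX (P a) + DH (Q a)) := by
  rw [h.r1, neg_neg]; rfl

theorem Chain.A2_eq {P Q : ℕ → SF} (h : Chain P Q) (a : ℕ) : A2 P Q a = -(DX (Q a) - DH (P a)) := by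
  rw [h.r2, neg_neg]; rfl

theorem Chain.VA1 {P Q : ℕ → SF} (h : Chain P Q) (a : ℕ) :
    DV (A1 P Q a) = -(((a : ℝ) + 1) • A2 P Q a) := by
  apply ext'
  intro x _
  simp only [A1, A2, map_sub, DV_DX, DV_DH', h.vP, h.vQ, map_neg, Derivation.map_smul,
    sub_apply, add_apply, neg_apply, smul_apply]
  push_cast
  ring

theorem Chain.VA2 {P Q : ℕ → SF} (h : Chain P Q) (a : ℕ) :
    DV (A2 P Q a) = ((a : ℝ) + 1) • A1 P Q a := by
  apply ext'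
  intro x _
  simp only [A1, A2, map_add, DV_DX, DV_DH', h.vP, h.vQ, map_neg, Derivation.map_smul,
    sub_apply, add_apply, neg_apply, smul_apply]
  push_cast
  ring

/-- `Δ Ψ_{a+2}` through `η₊ A` -/
theorem Chain.lapP' (hC : CasFacts) {P Q : ℕ → SF} (h : Chain P Q) (a : ℕ) :
    Lap (P (a + 2)) = (DX (A1 P Q a) + DH (A2 P Q a)) - (((a : ℝ) + 2) * (a + 1)) • P (a + 2) := by
  apply ext'
  intro x _
  have hc := congrArg (fun F : SF => F x) (DX_DH (Q (a + 2)))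
  simp only [h.vQ, sub_apply, smul_apply] at hc
  push_cast at hc
  rw [hC.right]
  simp only [A1, A2, map_add, map_sub, h.vP, h.vQ, map_neg, Derivation.map_smul,
    sub_apply, add_apply, neg_apply, smul_apply]
  push_cast
  linear_combination hc

theorem Chain.lapQ' (hC : CasFacts) {P Q : ℕ → SF} (h : Chain P Q) (a : ℕ) :
    Lap (Q (a + 2)) = (DX (A2 P Q a) - DH (A1 P Q a)) - (((a : ℝ) + 2) * (a + 1)) • Q (a + 2) := by
  apply ext'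
  intro x _
  have hc := congrArg (fun F : SF => F x) (DX_DH (P (a + 2)))
  simp only [h.vP, sub_apply, neg_apply, smul_apply] at hc
  push_cast at hc
  rw [hC.right]
  simp only [A1, A2, map_add, map_sub, h.vP, h.vQ, map_neg, Derivation.map_smul,
    sub_apply, add_apply, neg_apply, smul_apply]
  push_cast
  linear_combination (-1) * hc

theorem Chain.lapP (hC : CasFacts) {P Q : ℕ → SF} (h : Chain P Q) (a : ℕ) :
    Lap (P a) = -(DX (A1 P Q a) - DH (A2 P Q a)) - ((a : ℝ) * (a + 1)) • P a := by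
  apply ext'
  intro x _
  have hc := congrArg (fun F : SF => F x) (DX_DH (Q a))
  simp only [h.vQ, sub_apply, smul_apply] at hc
  rw [hC.right, h.A1_eq, h.A2_eq]
  simp only [map_add, map_sub, h.vP, h.vQ, map_neg, Derivation.map_smul,
    sub_apply, add_apply, neg_apply, smul_apply]
  linear_combination (-1) * hc

theorem Chain.lapQ (hC : CasFacts) {P Q : ℕ → SF} (h : Chain P Q) (a : ℕ) :
    Lap (Q a) = -(DX (A2 P Q a) + DH (A1 P Q a)) - ((a : ℝ) * (a + 1)) • Q a := by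
  apply ext'
  intro x _
  have hc := congrArg (fun F : SF => F x) (DX_DH (P a))
  simp only [h.vP, sub_apply, neg_apply, smul_apply] at hc
  rw [hC.right, h.A1_eq, h.A2_eq]
  simp only [map_add, map_sub, h.vP, h.vQ, map_neg, Derivation.map_smul,
    sub_apply, add_apply, neg_apply, smul_apply]
  linear_combination hc

/-- the bounds at level `a` -/
structure Lvl (P Q : ℕ → SF) (a : ℕ) (K d1 d2 : ℝ) : Prop where
  a1 : nrm (A1 P Q a) ≤ K * d1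
  a2 : nrm (A2 P Q a) ≤ K * d1
  p' : nrm (P (a + 2)) ≤ K * d1
  q' : nrm (Q (a + 2)) ≤ K * d1
  p : (a : ℝ) * (a + 1) * nrm (P a) ≤ K * d1
  q : (a : ℝ) * (a + 1) * nrm (Q a) ≤ K * d1
  lp : nrm (Lap (P a)) ≤ K * d2
  lq : nrm (Lap (Q a)) ≤ K * d2
  lp' : nrm (Lap (P (a + 2))) ≤ K * d2
  lq' : nrm (Lap (Q (a + 2))) ≤ K * d2

theorem nrm_sq_le_D0 (P Q : SF) : nrm P ^ 2 ≤ D0 P Q ∧ nrm Q ^ 2 ≤ D0 P Q := by
  simp only [D0, ipB_self]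
  constructor
  · have := sq_nonneg (nrm Q); linarith
  · have := sq_nonneg (nrm P); linarith

theorem nrm_sq_le_D2 (P Q : SF) : nrm (Lap P) ^ 2 ≤ D2 P Q ∧ nrm (Lap Q) ^ 2 ≤ D2 P Q := by
  simp only [D2, ipB_self]
  constructor
  · have := sq_nonneg (nrm (Lap Q)); linarith
  · have := sq_nonneg (nrm (Lap P)); linarith

theorem lvl (hC : CasFacts) (a : ℕ) (ha : Even a) : ∃ K : ℝ, 1 ≤ K ∧
    ∀ (P Q : ℕ → SF) (d1 d2 : ℝ), Chain P Q → 0 ≤ d1 → 0 ≤ d2 → D1 (P 0) (Q 0) ≤ d1 ^ 2 →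
      D2 (P 0) (Q 0) ≤ d2 ^ 2 → Lvl P Q a K d1 d2 := by
  obtain ⟨K₁, hK₁, h₁⟩ := chain_bounds hC a ha
  obtain ⟨K₂, hK₂, h₂⟩ := chain_bounds hC (a + 2) (ha.add (by decide))
  set α : ℝ := (a : ℝ) * (a + 1) with hα
  have hα0 : 0 ≤ α := by positivity
  set K : ℝ := (α + 1) * (K₁ + K₂) with hK
  have hK1 : 1 ≤ K := by nlinarith
  have hKK : K ≤ K ^ 2 := by nlinarith
  have hKa : K₁ ≤ K ^ 2 := by nlinarith
  have hKb : K₂ ≤ K ^ 2 := by nlinarith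
  have hKc : α * K₁ ≤ K ^ 2 := by nlinarith
  refine ⟨K, hK1, fun P Q d1 d2 h hd1 hd2 hD1 hD2 => ?_⟩
  obtain ⟨b1, b2⟩ := h₁ P Q h
  obtain ⟨c1, c2⟩ := h₂ P Q h
  have hd1' : 0 ≤ d1 ^ 2 := by positivity
  have hd2' : 0 ≤ d2 ^ 2 := by positivity
  have e1 : D1 (P a) (Q a) ≤ K₁ * d1 ^ 2 :=
    b1.trans (mul_le_mul_of_nonneg_left hD1 (by linarith))
  have e2 : D2 (P a) (Q a) ≤ K₁ * d2 ^ 2 :=
    b2.trans (mul_le_mul_of_nonneg_left hD2 (by linarith))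
  have e3 : D1 (P (a + 2)) (Q (a + 2)) ≤ K₂ * d1 ^ 2 :=
    c1.trans (mul_le_mul_of_nonneg_left hD1 (by linarith))
  have e4 : D2 (P (a + 2)) (Q (a + 2)) ≤ K₂ * d2 ^ 2 :=
    c2.trans (mul_le_mul_of_nonneg_left hD2 (by linarith))
  have hsq : ∀ d : ℝ, (K * d) ^ 2 = K ^ 2 * d ^ 2 := fun d => by ring
  have hKd1 : 0 ≤ K * d1 := by positivity
  have hKd2 : 0 ≤ K * d2 := by positivity
  -- the norm of `A`
  have hA : nrm (A1 P Q a) ^ 2 + nrm (A2 P Q a) ^ 2 ≤ K₁ * d1 ^ 2 := by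
    have h1 := eta_plus hC (P a) (Q a) a (h.vP a) (h.vQ a)
    rw [h.A1_eq, h.A2_eq, nrm_neg, nrm_neg, ← ipB_self, ← ipB_self, h1]
    have h2 : 0 ≤ (a : ℝ) * (a + 1) * (ipB (P a) (P a) + ipB (Q a) (Q a)) :=
      mul_nonneg hα0 (D0_nonneg _ _)
    have h3 : D1 (P a) (Q a) = -(ipB (Lap (P a)) (P a)) - ipB (Lap (Q a)) (Q a) := rfl
    linarith
  have hA1 : nrm (A1 P Q a) ^ 2 ≤ K₁ * d1 ^ 2 := by
    have := sq_nonneg (nrm (A2 P Q a)); linarith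
  have hA2 : nrm (A2 P Q a) ^ 2 ≤ K₁ * d1 ^ 2 := by
    have := sq_nonneg (nrm (A1 P Q a)); linarith
  -- the norm of `Ψ_{a+2}`
  have hP' : D0 (P (a + 2)) (Q (a + 2)) ≤ K₂ * d1 ^ 2 := by
    have h1 := h.low hC (a + 2)
    have h2 := D0_nonneg (P (a + 2)) (Q (a + 2))
    have h3 : (1 : ℝ) ≤ ((a + 2 : ℕ) : ℝ) * (((a + 2 : ℕ) : ℝ) + 1) := by
      push_cast
      have : (0 : ℝ) ≤ a := Nat.cast_nonneg a
      nlinarith
    have h4 := mul_le_mul_of_nonneg_right h3 h2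
    linarith
  have hPa : ∀ F : SF, nrm F ^ 2 ≤ D0 (P a) (Q a) → α * nrm F ≤ K * d1 := by
    intro F hF
    apply (le_abs_self _).trans (abs_le_of_sq_le_sq _ hKd1)
    have h1 := h.low hC a
    rw [hsq]
    calc (α * nrm F) ^ 2 = α * (α * nrm F ^ 2) := by ring
      _ ≤ α * (α * D0 (P a) (Q a)) := by gcongr
      _ ≤ α * (K₁ * d1 ^ 2) := by
          apply mul_le_mul_of_nonneg_left _ hα0
          exact h1.trans e1
      _ = (α * K₁) * d1 ^ 2 := by ring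
      _ ≤ K ^ 2 * d1 ^ 2 := mul_le_mul_of_nonneg_right hKc hd1'
  constructor
  · exact nrm_le_of_sq hKd1 (hA1.trans (by rw [hsq]; exact mul_le_mul_of_nonneg_right hKa hd1'))
  · exact nrm_le_of_sq hKd1 (hA2.trans (by rw [hsq]; exact mul_le_mul_of_nonneg_right hKa hd1'))
  · exact nrm_le_of_sq hKd1 (((nrm_sq_le_D0 _ _).1.trans hP').trans
      (by rw [hsq]; exact mul_le_mul_of_nonneg_right hKb hd1'))
  · exact nrm_le_of_sq hKd1 (((nrm_sq_le_D0 _ _).2.trans hP').trans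
      (by rw [hsq]; exact mul_le_mul_of_nonneg_right hKb hd1'))
  · exact hPa _ (nrm_sq_le_D0 _ _).1
  · exact hPa _ (nrm_sq_le_D0 _ _).2
  · exact nrm_le_of_sq hKd2 (((nrm_sq_le_D2 _ _).1.trans e2).trans
      (by rw [hsq]; exact mul_le_mul_of_nonneg_right hKa hd2'))
  · exact nrm_le_of_sq hKd2 (((nrm_sq_le_D2 _ _).2.trans e2).trans
      (by rw [hsq]; exact mul_le_mul_of_nonneg_right hKa hd2'))
  · exact nrm_le_of_sq hKd2 (((nrm_sq_le_D2 _ _).1.trans e4).trans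
      (by rw [hsq]; exact mul_le_mul_of_nonneg_right hKb hd2'))
  · exact nrm_le_of_sq hKd2 (((nrm_sq_le_D2 _ _).2.trans e4).trans
      (by rw [hsq]; exact mul_le_mul_of_nonneg_right hKb hd2'))

/-- derived bounds of first derivatives of `A` -/
structure Lvl' (P Q : ℕ → SF) (a : ℕ) (K d1 d2 : ℝ) : Prop extends Lvl P Q a K d1 d2 where
  u1 : nrm (DX (A1 P Q a) + DH (A2 P Q a) : SF) ≤ K * (d1 + d2)
  u2 : nrm (DX (A2 P Q a) - DH (A1 P Q a) : SF) ≤ K * (d1 + d2)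
  v1 : nrm (DX (A1 P Q a) - DH (A2 P Q a) : SF) ≤ K * (d1 + d2)
  v2 : nrm (DX (A2 P Q a) + DH (A1 P Q a) : SF) ≤ K * (d1 + d2)
  xa1 : nrm (DX (A1 P Q a)) ≤ K * (d1 + d2)
  xa2 : nrm (DX (A2 P Q a)) ≤ K * (d1 + d2)
  ha1 : nrm (DH (A1 P Q a)) ≤ K * (d1 + d2)
  ha2 : nrm (DH (A2 P Q a)) ≤ K * (d1 + d2)

theorem nrm_half {F G H : SF} {c : ℝ} (hF : nrm F ≤ c) (hG : nrm G ≤ c)
    (h : H + H = F + G) : nrm H ≤ c := by
  have h1 := nrm_add_le F G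
  rw [← h, ← two_smul ℝ H, nrm_smul] at h1
  norm_num at h1
  linarith

theorem nrm_half' {F G H : SF} {c : ℝ} (hF : nrm F ≤ c) (hG : nrm G ≤ c)
    (h : H + H = F - G) : nrm H ≤ c :=
  nrm_half hF (G := -G) (by rwa [nrm_neg]) (by rw [h, sub_eq_add_neg])

theorem lvl' (hC : CasFacts) (a : ℕ) (ha : Even a) : ∃ K : ℝ, 1 ≤ K ∧
    ∀ (P Q : ℕ → SF) (d1 d2 : ℝ), Chain P Q → 0 ≤ d1 → 0 ≤ d2 → D1 (P 0) (Q 0) ≤ d1 ^ 2 →
      D2 (P 0) (Q 0) ≤ d2 ^ 2 → Lvl' P Q a K d1 d2 := by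
  obtain ⟨K, hK, h0⟩ := lvl hC a ha
  set β : ℝ := ((a : ℝ) + 2) * (a + 1) with hβ
  have hβ0 : 0 ≤ β := by positivity
  refine ⟨(β + 1) * K, by nlinarith, fun P Q d1 d2 h hd1 hd2 hD1 hD2 => ?_⟩
  have hL := h0 P Q d1 d2 h hd1 hd2 hD1 hD2
  have hK0 : 0 ≤ K := by linarith
  have m1 : K * d1 ≤ (β + 1) * K * d1 := by
    have : 0 ≤ β * (K * d1) := by positivity
    nlinarith
  have m2 : K * d2 ≤ (β + 1) * K * d2 := by
    have : 0 ≤ β * (K * d2) := by positivity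
    nlinarith
  have m3 : K * d2 + K * d1 ≤ (β + 1) * K * (d1 + d2) := by nlinarith
  have m4 : K * d2 + β * (K * d1) ≤ (β + 1) * K * (d1 + d2) := by
    have e1 : 0 ≤ β * (K * d2) := by positivity
    have e2 : 0 ≤ K * d1 := by positivity
    nlinarith
  have u1 : nrm (DX (A1 P Q a) + DH (A2 P Q a) : SF) ≤ (β + 1) * K * (d1 + d2) := by
    have e : DX (A1 P Q a) + DH (A2 P Q a) = Lap (P (a + 2)) + β • P (a + 2) := by
      rw [h.lapP' hC a]; abel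
    rw [e]
    refine (nrm_add_le _ _).trans (le_trans ?_ m4)
    rw [nrm_smul, abs_of_nonneg hβ0]
    exact add_le_add hL.lp' (mul_le_mul_of_nonneg_left hL.p' hβ0)
  have u2 : nrm (DX (A2 P Q a) - DH (A1 P Q a) : SF) ≤ (β + 1) * K * (d1 + d2) := by
    have e : DX (A2 P Q a) - DH (A1 P Q a) = Lap (Q (a + 2)) + β • Q (a + 2) := by
      rw [h.lapQ' hC a]; abel
    rw [e]
    refine (nrm_add_le _ _).trans (le_trans ?_ m4)
    rw [nrm_smul, abs_of_nonneg hβ0]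
    exact add_le_add hL.lq' (mul_le_mul_of_nonneg_left hL.q' hβ0)
  have hα0 : (0 : ℝ) ≤ (a : ℝ) * (a + 1) := by positivity
  have v1 : nrm (DX (A1 P Q a) - DH (A2 P Q a) : SF) ≤ (β + 1) * K * (d1 + d2) := by
    have e : DX (A1 P Q a) - DH (A2 P Q a) = -(Lap (P a) + ((a : ℝ) * (a + 1)) • P a) := by
      rw [h.lapP hC a]; abel
    rw [e, nrm_neg]
    refine (nrm_add_le _ _).trans (le_trans ?_ m3)
    rw [nrm_smul, abs_of_nonneg hα0]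
    exact add_le_add hL.lp hL.p
  have v2 : nrm (DX (A2 P Q a) + DH (A1 P Q a) : SF) ≤ (β + 1) * K * (d1 + d2) := by
    have e : DX (A2 P Q a) + DH (A1 P Q a) = -(Lap (Q a) + ((a : ℝ) * (a + 1)) • Q a) := by
      rw [h.lapQ hC a]; abel
    rw [e, nrm_neg]
    refine (nrm_add_le _ _).trans (le_trans ?_ m3)
    rw [nrm_smul, abs_of_nonneg hα0]
    exact add_le_add hL.lq hL.q
  refine ⟨⟨hL.a1.trans m1, hL.a2.trans m1, hL.p'.trans m1, hL.q'.trans m1, hL.p.trans m1,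
    hL.q.trans m1, hL.lp.trans m2, hL.lq.trans m2, hL.lp'.trans m2, hL.lq'.trans m2⟩,
    u1, u2, v1, v2, ?_, ?_, ?_, ?_⟩
  · exact nrm_half u1 v1 (by abel)
  · exact nrm_half u2 v2 (by abel)
  · exact nrm_half' v2 u2 (by abel)
  · exact nrm_half' u1 v1 (by abel)

/-- the weighted pairing -/
noncomputable def wB (w : SF) : SF →ₗ[ℝ] SF →ₗ[ℝ] ℝ := ipB ∘ₗ (LinearMap.mulLeft ℝ w)

theorem wB_apply (w F G : SF) : wB w F G = ipB (w * F) G := rfl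

theorem Rw_eq (w F₁ F₂ G₁ G₂ : SF) : Rw w F₁ F₂ G₁ G₂ = wB w F₁ G₁ + wB w F₂ G₂ := rfl

theorem abs_Rw_le {B : ℝ} {w : SF} (hw : ∀ x : ℍ, |w x| ≤ B) {F₁ F₂ G₁ G₂ : SF} {K K' : ℝ}
    (h1 : nrm F₁ ≤ K) (h2 : nrm F₂ ≤ K) (h3 : nrm G₁ ≤ K') (h4 : nrm G₂ ≤ K') :
    |Rw w F₁ F₂ G₁ G₂| ≤ 2 * (B * (K * K')) := by
  rw [Rw]
  calc _ ≤ |ipB (w * F₁) G₁| + |ipB (w * F₂) G₂| := abs_add_le _ _
    _ ≤ B * (K * K') + B * (K * K') := add_le_add (abs_ipB_mul_le hw h1 h3) (abs_ipB_mul_le hw h2 h4)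
    _ = _ := by ring

theorem decomp (w P Q P' Q' S T S' T' LP LQ LP' LQ' LS LT LS' LT' U1 U2 V1 V2 W1 W2 Y1 Y2 : SF)
    (α β γ δ : ℝ) (h1 : LP' = U1 - β • P') (h2 : LQ' = U2 - β • Q') (h3 : LP = -V1 - α • P)
    (h4 : LQ = -V2 - α • Q) (g1 : LS' = W1 - δ • S') (g2 : LT' = W2 - δ • T')
    (g3 : LS = -Y1 - γ • S) (g4 : LT = -Y2 - γ • T) :
    Rw w LP' LQ' LS' LT' - Rw w LP LQ LS LT =
      (Rw w U1 U2 W1 W2 - Rw w V1 V2 Y1 Y2) - δ * Rw w U1 U2 S' T' - β * Rw w P' Q' LS' LT'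
        - γ * Rw w V1 V2 S T + α * Rw w P Q LS LT := by
  subst h1 h2 h3 h4 g1 g2 g3 g4
  simp only [Rw_eq, map_sub, map_neg, map_smul, LinearMap.sub_apply, LinearMap.neg_apply,
    LinearMap.smul_apply, smul_eq_mul]
  ring

theorem combine {x1 x2 x3 x4 x5 x6 x7 x8 x9 x10 Z c β δ γ α : ℝ} (hc : 0 ≤ c) (hβ0 : 0 ≤ β)
    (hδ0 : 0 ≤ δ) (hγ : 0 ≤ γ) (hα : 0 ≤ α)
    (t1 : |x1| ≤ Z) (t2 : |x2| ≤ Z) (t3 : |x3| ≤ Z) (t4 : |x4| ≤ Z) (t5 : |x5| ≤ Z) (t6 : |x6| ≤ Z)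
    (t7 : |x7| ≤ 2 * Z) (t8 : |x8| ≤ 2 * Z) (t9 : γ * |x9| ≤ 2 * Z) (t10 : α * |x10| ≤ 2 * Z) :
    |2 * (-x1 + x2 - x3 + x4) - 2 * c * (x5 + x6) - δ * x7 - β * x8 - γ * x9 + α * x10|
      ≤ (12 + 4 * c + 2 * δ + 2 * β) * Z := by
  have e2 : |2 * c * (x5 + x6)| ≤ 4 * c * Z := by
    rw [abs_mul, abs_of_nonneg (by positivity : (0 : ℝ) ≤ 2 * c)]
    have : |x5 + x6| ≤ 2 * Z := (abs_add_le _ _).trans (by linarith)
    calc 2 * c * |x5 + x6| ≤ 2 * c * (2 * Z) := by gcongr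
      _ = _ := by ring
  have e3 : |δ * x7| ≤ 2 * δ * Z := by
    rw [abs_mul, abs_of_nonneg hδ0]
    calc δ * |x7| ≤ δ * (2 * Z) := by gcongr
      _ = _ := by ring
  have e4 : |β * x8| ≤ 2 * β * Z := by
    rw [abs_mul, abs_of_nonneg hβ0]
    calc β * |x8| ≤ β * (2 * Z) := by gcongr
      _ = _ := by ring
  have e5 : |γ * x9| ≤ 2 * Z := by
    rw [abs_mul, abs_of_nonneg hγ]; exact t9
  have e6 : |α * x10| ≤ 2 * Z := by
    rw [abs_mul, abs_of_nonneg hα]; exact t10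
  have e7 : (12 + 4 * c + 2 * δ + 2 * β) * Z = 12 * Z + 4 * c * Z + 2 * δ * Z + 2 * β * Z := by ring
  rw [e7, abs_le]
  rw [abs_le] at t1 t2 t3 t4 e2 e3 e4 e5 e6
  constructor <;> linarith

/-- the shift estimate, real part -/
theorem shift_real (hC : CasFacts) (a b : ℕ) (ha : Even a) (hb : Even b) : ∃ C : ℝ, 0 ≤ C ∧
    ∀ (B : ℝ) (w : SF), (∀ x : ℍ, |w x| ≤ B) → (∀ x : ℍ, |(DX w) x| ≤ B) →
      (∀ x : ℍ, |(DH w) x| ≤ B) →
    ∀ (P Q S T : ℕ → SF) (d1 d2 : ℝ), Chain P Q → Chain S T → 0 ≤ d1 → 0 ≤ d2 →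
      D1 (P 0) (Q 0) ≤ d1 ^ 2 → D2 (P 0) (Q 0) ≤ d2 ^ 2 →
      D1 (S 0) (T 0) ≤ d1 ^ 2 → D2 (S 0) (T 0) ≤ d2 ^ 2 →
      |Rw w (Lap (P (a + 2))) (Lap (Q (a + 2))) (Lap (S (b + 2))) (Lap (T (b + 2)))
        - Rw w (Lap (P a)) (Lap (Q a)) (Lap (S b)) (Lap (T b))| ≤ C * B * ((d1 + d2) * d1) := by
  obtain ⟨K, hK, hKa⟩ := lvl' hC a ha
  obtain ⟨K', hK', hKb⟩ := lvl' hC b hb
  set β : ℝ := ((a : ℝ) + 2) * (a + 1) with hβ
  set δ : ℝ := ((b : ℝ) + 2) * (b + 1) with hδ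
  have hβ0 : 0 ≤ β := by positivity
  have hδ0 : 0 ≤ δ := by positivity
  refine ⟨K * K' * (12 + 4 * ((a : ℝ) + 1) + 2 * δ + 2 * β), by positivity, ?_⟩
  intro B w hw hwX hwH P Q S T d1 d2 hPQ hST hd1 hd2 hD1 hD2 hE1 hE2
  have hL := hKa P Q d1 d2 hPQ hd1 hd2 hD1 hD2
  have hM := hKb S T d1 d2 hST hd1 hd2 hE1 hE2
  have hB : 0 ≤ B := (abs_nonneg _).trans (hw 0)
  have hK0 : 0 ≤ K := by linarith
  have hK0' : 0 ≤ K' := by linarith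
  -- abbreviation for the target size
  set Z : ℝ := B * (K * K') * ((d1 + d2) * d1) with hZ
  have hZ0 : 0 ≤ Z := by positivity
  have hdd : d1 * d1 ≤ (d1 + d2) * d1 := by nlinarith
  have hdd2 : d1 * d2 ≤ (d1 + d2) * d1 := by nlinarith
  have z1 : B * (K * (d1 + d2) * (K' * d1)) = Z := by rw [hZ]; ring
  have z2 : B * (K * d1 * (K' * d1)) ≤ Z := by
    have : B * (K * d1 * (K' * d1)) = B * (K * K') * (d1 * d1) := by ring
    rw [this, hZ]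
    exact mul_le_mul_of_nonneg_left hdd (by positivity)
  have z3 : B * (K * d1 * (K' * d2)) ≤ Z := by
    have : B * (K * d1 * (K' * d2)) = B * (K * K') * (d1 * d2) := by ring
    rw [this, hZ]
    exact mul_le_mul_of_nonneg_left hdd2 (by positivity)
  have hdec := decomp w (P a) (Q a) (P (a + 2)) (Q (a + 2)) (S b) (T b) (S (b + 2)) (T (b + 2))
    _ _ _ _ _ _ _ _ _ _ _ _ _ _ _ _ _ _ _ _ (hPQ.lapP' hC a) (hPQ.lapQ' hC a)
    (hPQ.lapP hC a) (hPQ.lapQ hC a) (hST.lapP' hC b) (hST.lapQ' hC b)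
    (hST.lapP hC b) (hST.lapQ hC b)
  rw [hdec, key_identity w (A1 P Q a) (A2 P Q a) (A1 S T b) (A2 S T b) ((a : ℝ) + 1)
    (hPQ.VA1 a) (hPQ.VA2 a)]
  -- the six groups
  have t1 : |ipB (DH w * DX (A1 P Q a)) (A2 S T b)| ≤ Z :=
    (abs_ipB_mul_le hwH hL.xa1 hM.a2).trans z1.le
  have t2 : |ipB (DX w * DH (A1 P Q a)) (A2 S T b)| ≤ Z :=
    (abs_ipB_mul_le hwX hL.ha1 hM.a2).trans z1.le
  have t3 : |ipB (DX w * DH (A2 P Q a)) (A1 S T b)| ≤ Z :=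
    (abs_ipB_mul_le hwX hL.ha2 hM.a1).trans z1.le
  have t4 : |ipB (DH w * DX (A2 P Q a)) (A1 S T b)| ≤ Z :=
    (abs_ipB_mul_le hwH hL.xa2 hM.a1).trans z1.le
  have t5 : |ipB (w * A2 P Q a) (A2 S T b)| ≤ Z :=
    (abs_ipB_mul_le hw hL.a2 hM.a2).trans z2
  have t6 : |ipB (w * A1 P Q a) (A1 S T b)| ≤ Z :=
    (abs_ipB_mul_le hw hL.a1 hM.a1).trans z2
  have t7 : |Rw w (DX (A1 P Q a) + DH (A2 P Q a)) (DX (A2 P Q a) - DH (A1 P Q a))
      (S (b + 2)) (T (b + 2))| ≤ 2 * Z :=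
    (abs_Rw_le hw hL.u1 hL.u2 hM.p' hM.q').trans (by rw [z1])
  have t8 : |Rw w (P (a + 2)) (Q (a + 2)) (Lap (S (b + 2))) (Lap (T (b + 2)))| ≤ 2 * Z :=
    (abs_Rw_le hw hL.p' hL.q' hM.lp' hM.lq').trans (by linarith)
  have t9 : (b : ℝ) * (b + 1) * |Rw w (DX (A1 P Q a) - DH (A2 P Q a))
      (DX (A2 P Q a) + DH (A1 P Q a)) (S b) (T b)| ≤ 2 * Z := by
    have h0 : (0 : ℝ) ≤ (b : ℝ) * (b + 1) := by positivity
    rw [← abs_of_nonneg h0, ← abs_mul]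
    have e : (b : ℝ) * (b + 1) * Rw w (DX (A1 P Q a) - DH (A2 P Q a))
        (DX (A2 P Q a) + DH (A1 P Q a)) (S b) (T b)
        = Rw w (DX (A1 P Q a) - DH (A2 P Q a)) (DX (A2 P Q a) + DH (A1 P Q a))
          (((b : ℝ) * (b + 1)) • S b) (((b : ℝ) * (b + 1)) • T b) := by
      simp only [Rw_eq, map_smul, smul_eq_mul]; ring
    rw [e]
    refine (abs_Rw_le hw hL.v1 hL.v2 (K' := K' * d1) ?_ ?_).trans (by rw [z1])
    · rw [nrm_smul, abs_of_nonneg h0]; exact hM.p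
    · rw [nrm_smul, abs_of_nonneg h0]; exact hM.q
  have t10 : (a : ℝ) * (a + 1) * |Rw w (P a) (Q a) (Lap (S b)) (Lap (T b))| ≤ 2 * Z := by
    have h0 : (0 : ℝ) ≤ (a : ℝ) * (a + 1) := by positivity
    rw [← abs_of_nonneg h0, ← abs_mul]
    have e : (a : ℝ) * (a + 1) * Rw w (P a) (Q a) (Lap (S b)) (Lap (T b))
        = Rw w (((a : ℝ) * (a + 1)) • P a) (((a : ℝ) * (a + 1)) • Q a)
          (Lap (S b)) (Lap (T b)) := by
      simp only [Rw_eq, map_smul, LinearMap.smul_apply, smul_eq_mul]; ring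
    rw [e]
    refine (abs_Rw_le hw (K := K * d1) ?_ ?_ hM.lp hM.lq).trans (by linarith)
    · rw [nrm_smul, abs_of_nonneg h0]; exact hL.p
    · rw [nrm_smul, abs_of_nonneg h0]; exact hL.q
  have ha0 : (0 : ℝ) ≤ (a : ℝ) + 1 := by positivity
  have hfin : K * K' * (12 + 4 * ((a : ℝ) + 1) + 2 * δ + 2 * β) * B * ((d1 + d2) * d1)
      = (12 + 4 * ((a : ℝ) + 1) + 2 * δ + 2 * β) * Z := by rw [hZ]; ring
  rw [hfin]
  exact combine ha0 hβ0 hδ0 (by positivity) (by positivity) t1 t2 t3 t4 t5 t6 t7 t8 t9 t10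

end Pool.Agent.MP85963d.H32
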