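import Mathlib
import Pool.Agent.Lib.MP_85963d_gt.H32.ShiftAlg

/-!
# Weight components of elements of `MN n`
-/

set_option autoImplicit false

open MeasureTheory Set Filter Topology Quaternion
open scoped Real ContDiff

namespace Pool.Agent.MP85963d.H32

open SF

theorem rotI_ne_zero (t : ℝ) : rot qI t ≠ 0 := rot_ne_zero isImUnit_I t

theorem rotI_inv (t : ℝ) : (rot qI t)⁻¹ = rot qI (-t) := by
  apply inv_eq_of_mul_eq_one_right
  rw [← rot_add isImUnit_I, add_neg_cancel, rot_zero]

theorem rotI_two_pi : rot qI (2 * π) = -1 := by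
  rw [rot]
  have : 2 * π / 2 = π := by ring
  rw [this]; simp

/-- right translation by `rot qI t` -/
noncomputable def rt (t : ℝ) (F : SF) : SF :=
  SF.of (fun x => F (x * rot qI t))
    (F.smooth.comp (rm (rot qI t)).contDiff.contDiffOn
      (fun x hx => mul_ne_zero hx (rotI_ne_zero t)))
    (fun r x hr _ => by rw [smul_mul_assoc]; exact F.hom hr _)

theorem rt_apply (t : ℝ) (F : SF) (x : ℍ) : (rt t F) x = F (x * rot qI t) := by
  by_cases hx : x = 0
  · subst hx; rw [zero_mul, map_zero', map_zero']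
  · exact of_apply hx

theorem coe_rt (t : ℝ) (F : SF) : ((rt t F : SF) : ℍ → ℝ) = fun x => F (rm (rot qI t) x) :=
  funext (rt_apply t F)

theorem fderiv_rt (t : ℝ) (F : SF) {x : ℍ} (hx : x ≠ 0) (v : ℍ) :
    fderiv ℝ (rt t F) x v = fderiv ℝ F (x * rot qI t) (v * rot qI t) := by
  have h1 : HasFDerivAt F (fderiv ℝ F (rm (rot qI t) x)) (rm (rot qI t) x) :=
    F.hasFDerivAt (mul_ne_zero hx (rotI_ne_zero t))
  have h2 := h1.comp x (rm (rot qI t)).hasFDerivAt
  have h3 : ((rt t F : SF) : ℍ → ℝ) = (F : ℍ → ℝ) ∘ (rm (rot qI t)) := coe_rt t F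
  rw [h3, h2.fderiv]
  rfl

theorem Z_rt (a : ℍ) (t : ℝ) (F : SF) : Z a (rt t F) = rt t (Z a F) := by
  apply ext'
  intro x hx
  rw [Z_apply, fderiv_rt t F hx, rt_apply, Z_apply, mul_assoc]

theorem R_rt (a : ℍ) (t : ℝ) (F : SF) : R a (rt t F) = rt t (R (conjQ (rot qI (-t)) a) F) := by
  apply ext'
  intro x hx
  rw [R_apply, fderiv_rt t F hx, rt_apply, R_apply]
  congr 1
  rw [conjQ, rotI_inv, neg_neg, ← rotI_inv]
  have h := rotI_ne_zero t
  simp only [← mul_assoc]
  rw [mul_assoc x (rot qI t) (rot qI t)⁻¹, mul_inv_cancel₀ h, mul_one]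

theorem rt_add (t : ℝ) (F G : SF) : rt t (F + G) = rt t F + rt t G := by
  apply ext'; intro x _
  simp only [rt_apply, add_apply]

theorem rt_smul (t c : ℝ) (F : SF) : rt t (c • F) = c • rt t F := by
  apply ext'; intro x _
  simp only [rt_apply, smul_apply]

theorem DZ_rt (a : Fin 3) (t : ℝ) (F : SF) : DZ a (rt t F) = rt t (DZ a F) := Z_rt _ _ _

theorem Lap_rt (t : ℝ) (F : SF) : Lap (rt t F) = rt t (Lap F) := by
  simp only [Lap_eq, DZ_rt, rt_add]

theorem DV_rt (t : ℝ) (F : SF) : DV (rt t F) = rt t (DV F) := by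
  rw [DV, R_rt, conjQ_smul, conj_rot_self isImUnit_I]

theorem DX_rt (t : ℝ) (F : SF) :
    DX (rt t F) = Real.cos t • rt t (DX F) - Real.sin t • rt t (DH F) := by
  apply ext'
  intro x _
  have e : (1 / 2 : ℝ) • (Real.cos t • qK + Real.sin t • qJ)
      = Real.cos t • ((1 / 2 : ℝ) • qK) + (-Real.sin t) • (-((1 / 2 : ℝ) • qJ)) := by module
  rw [DX, R_rt, conjQ_smul, conj_rotI_K, Real.cos_neg, Real.sin_neg, neg_smul, sub_neg_eq_add, e,
    R_add, R_smul (Real.cos t), R_smul (-Real.sin t), DH]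
  simp only [sub_apply, smul_apply, rt_apply, add_apply]
  ring

theorem DH_rt (t : ℝ) (F : SF) :
    DH (rt t F) = Real.cos t • rt t (DH F) + Real.sin t • rt t (DX F) := by
  apply ext'
  intro x _
  have e : -((1 / 2 : ℝ) • (Real.cos t • qJ + (-Real.sin t) • qK))
      = Real.cos t • (-((1 / 2 : ℝ) • qJ)) + Real.sin t • ((1 / 2 : ℝ) • qK) := by module
  have hneg : conjQ (rot qI (-t)) (-((1 / 2 : ℝ) • qJ)) = -((1 / 2 : ℝ) • conjQ (rot qI (-t)) qJ) := by
    rw [← neg_smul, conjQ_smul, neg_smul]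
  rw [DH, R_rt, hneg, conj_rotI_J, Real.cos_neg, Real.sin_neg, e,
    R_add, R_smul (Real.cos t), R_smul (Real.sin t), DX]
  simp only [smul_apply, rt_apply, add_apply]

/-- continuity of linear functionals along a pointwise continuous curve in a finite-dimensional
space of functions -/
theorem cont_functional {E X : Type*} [AddCommGroup E] [Module ℝ E] [Module.Finite ℝ E]
    (ev : X → (E →ₗ[ℝ] ℝ)) (hsep : ∀ f : E, (∀ x, ev x f = 0) → f = 0) (γ : ℝ → E)
    (hγ : ∀ x, Continuous fun t => ev x (γ t)) (l : E →ₗ[ℝ] ℝ) :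
    Continuous fun t => l (γ t) := by
  have htop : Submodule.span ℝ (Set.range ev) = (⊤ : Submodule ℝ (Module.Dual ℝ E)) := by
    have h1 := Subspace.dualCoannihilator_dualAnnihilator_eq
      (W := (Submodule.span ℝ (Set.range ev) : Subspace ℝ (Module.Dual ℝ E)))
    have h2 : (Submodule.span ℝ (Set.range ev)).dualCoannihilator = (⊥ : Submodule ℝ E) := by
      rw [eq_bot_iff]
      intro f hf
      rw [Submodule.mem_bot]
      rw [Submodule.mem_dualCoannihilator] at hf
      exact hsep f fun x => hf _ (Submodule.subset_span ⟨x, rfl⟩)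
    rw [← h1, h2]
    simp
  have hl : l ∈ Submodule.span ℝ (Set.range ev) := by rw [htop]; trivial
  induction hl using Submodule.span_induction with
  | mem y hy => obtain ⟨x, rfl⟩ := hy; exact hγ x
  | zero => simpa using continuous_const
  | add y z _ _ hy hz => exact hy.add hz
  | smul c y _ hy => exact hy.const_smul c

theorem continuous_flowI (F : SF) {x : ℍ} (hx : x ≠ 0) : Continuous fun t => F (x * rot qI t) :=
  continuous_iff_continuousAt.2 fun t => (hasDerivAt_DV F hx t).continuousAt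

theorem continuous_flowI' (F : SF) (x : ℍ) : Continuous fun t => F (x * rot qI t) := by
  by_cases hx : x = 0
  · subst hx
    simp only [zero_mul]
    exact continuous_const
  · exact continuous_flowI F hx

/-- separated form of the translates -/
theorem sep (hM : MNFacts) {n : ℕ} {F : SF} (hF : F ∈ MN n) :
    ∃ (d : ℕ) (b : Fin d → SF) (c : Fin d → ℝ → ℝ), (∀ i, b i ∈ MN n) ∧
      (∀ i, Continuous (c i)) ∧ ∀ t, rt t F = ∑ i, c i t • b i := by
  haveI := hM.finite n
  haveI : Module.Free ℝ (MN n) := Module.Free.of_divisionRing ℝ (MN n)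
  have hmem : ∀ t, rt t F ∈ MN n := by
    intro t
    obtain ⟨G, hG, hGx⟩ := hM.rcomp n (rot qI t) F (rotI_ne_zero t) hF
    have : rt t F = G := by
      apply ext'
      intro x _
      rw [rt_apply, hGx]
    rw [this]; exact hG
  let B := Module.finBasis ℝ (MN n)
  refine ⟨_, fun i => (B i : SF), fun i t => B.coord i ⟨rt t F, hmem t⟩, fun i => (B i).2,
    fun i => ?_, fun t => ?_⟩
  · apply cont_functional (X := Q0) (fun x =>
      { toFun := fun f : MN n => (f : SF) (x : ℍ)
        map_add' := fun f g => by simp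
        map_smul' := fun c f => by simp })
    · intro f hf
      apply Subtype.ext
      apply ext'
      intro x hx
      simpa using hf ⟨x, hx⟩
    · intro x
      change Continuous fun t => (rt t F) (x : ℍ)
      simp only [rt_apply]
      exact continuous_flowI F x.2
  · have h := B.sum_repr ⟨rt t F, hmem t⟩
    have h2 := congrArg Subtype.val h
    rw [Submodule.coe_sum] at h2
    exact h2.symm

/-- averages with a kernel, compatible with all linear operators -/
theorem exists_av (hM : MNFacts) {n : ℕ} {F : SF} (hF : F ∈ MN n) (k : ℝ → ℝ)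
    (hk : Continuous k) : ∃ G ∈ MN n, ∀ (D : SF →ₗ[ℝ] SF) (x : ℍ),
      (D G) x = (1 / (2 * π)) * ∫ t in (0:ℝ)..(2 * π), k t * (D (rt t F)) x := by
  obtain ⟨d, b, c, hb, hc, hs⟩ := sep hM hF
  refine ⟨∑ i, ((1 / (2 * π)) * ∫ t in (0:ℝ)..(2 * π), k t * c i t) • b i,
    Submodule.sum_mem _ fun i _ => Submodule.smul_mem _ _ (hb i), fun D x => ?_⟩
  have e1 : ∀ t, (D (rt t F)) x = ∑ i, c i t * (D (b i)) x := by
    intro t
    rw [hs t, map_sum, sum_apply]
    simp only [map_smul, smul_apply]
  simp only [e1]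
  rw [map_sum, sum_apply]
  simp only [map_smul, smul_apply, Finset.mul_sum]
  rw [intervalIntegral.integral_finsetSum, Finset.mul_sum]
  · refine Finset.sum_congr rfl fun i _ => ?_
    rw [mul_assoc, ← intervalIntegral.integral_mul_const]
    simp only [mul_assoc]
  · intro i _
    exact ((hk.mul ((hc i).mul continuous_const))).intervalIntegrable _ _

end Pool.Agent.MP85963d.H32
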