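import Mathlib
import Pool.Agent.Lib.MP_85963d_gt.H32.Cmp

/-!
# The weight components of an `X`-invariant element of `MN n` form a chain
-/

set_option autoImplicit false

open MeasureTheory Set Filter Topology Quaternion
open scoped Real ContDiff

namespace Pool.Agent.MP85963d.H32

open SF

/-- `DX f = 0` for e-functions -/
theorem DX_of_isE {F : SF} (h : IsE F) : DX F = 0 := by
  apply ext'
  intro x hx
  have h1 := hasDerivAt_DX F hx 0
  have h2 : (fun t => F (x * rot qK t)) = fun _ => F x := funext fun t => h.rotK x t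
  rw [h2, rot_zero, mul_one] at h1
  rw [zero_apply]
  exact h1.unique (hasDerivAt_const 0 _)

theorem flow_two_pi (F : SF) (x : ℍ) : F (x * rot qI (2 * π)) = F x := by
  rw [rotI_two_pi, mul_neg, mul_one, F.even]

/-- integration by parts on a circle -/
theorem parts (F : SF) {x : ℍ} (hx : x ≠ 0) (k k' : ℝ → ℝ) (hk : ∀ t, HasDerivAt k (k' t) t)
    (hk' : Continuous k') (hper : k (2 * π) = k 0) :
    ∫ t in (0:ℝ)..(2 * π), k t * (DV F) (x * rot qI t)
      = - ∫ t in (0:ℝ)..(2 * π), k' t * F (x * rot qI t) := by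
  have h := intervalIntegral.integral_mul_deriv_eq_deriv_mul (a := 0) (b := 2 * π)
    (u := k) (v := fun t => F (x * rot qI t)) (u' := k') (v' := fun t => (DV F) (x * rot qI t))
    (fun t _ => hk t) (fun t _ => hasDerivAt_DV F hx t) (hk'.intervalIntegrable _ _)
    ((continuous_flowI (DV F) hx).intervalIntegrable _ _)
  rw [h]
  simp only [flow_two_pi, rot_zero, mul_one, hper]
  ring

/-- `(1/2π) ∫ f e^{-ibt}` in real terms -/
theorem cmp_eq (b : ℤ) (F : ℍ → ℝ) (x : ℍ) (hF : Continuous fun t => F (x * rot qI t)) :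
    cmp b F x = ((1 / (2 * π)) * ∫ t in (0:ℝ)..(2 * π), Real.cos (b * t) * F (x * rot qI t) : ℝ)
      + (-((1 / (2 * π)) * ∫ t in (0:ℝ)..(2 * π), Real.sin (b * t) * F (x * rot qI t)) : ℝ)
        * Complex.I := by
  have e1 : ∀ t : ℝ, (F (x * rot qI t) : ℂ) * Complex.exp (-(b * t * Complex.I))
      = ((Real.cos (b * t) * F (x * rot qI t) : ℝ) : ℂ)
        + ((-(Real.sin (b * t) * F (x * rot qI t)) : ℝ) : ℂ) * Complex.I := by
    intro t
    have e2 : -((b : ℂ) * t * Complex.I) = ((-((b : ℝ) * t) : ℝ) : ℂ) * Complex.I := by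
      push_cast; ring
    rw [e2, Complex.exp_mul_I, ← Complex.ofReal_cos, ← Complex.ofReal_sin, Real.cos_neg,
      Real.sin_neg]
    push_cast
    ring
  have c1 : Continuous fun t : ℝ => Real.cos (b * t) * F (x * rot qI t) :=
    (Real.continuous_cos.comp (continuous_const.mul continuous_id)).mul hF
  have c2 : Continuous fun t : ℝ => Real.sin (b * t) * F (x * rot qI t) :=
    (Real.continuous_sin.comp (continuous_const.mul continuous_id)).mul hF
  rw [cmp]
  simp only [e1]
  rw [intervalIntegral.integral_add, intervalIntegral.integral_mul_const,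
    intervalIntegral.integral_ofReal, intervalIntegral.integral_ofReal,
    intervalIntegral.integral_neg]
  · push_cast; ring
  · exact (Complex.continuous_ofReal.comp c1).intervalIntegrable _ _
  · exact ((Complex.continuous_ofReal.comp c2.neg).mul continuous_const).intervalIntegrable _ _

/-- the components of an element of `MN n` killed by `X` -/
theorem exists_chain (hM : MNFacts) {n : ℕ} {F : SF} (hF : F ∈ MN n) (hX : DX F = 0) :
    ∃ P Q : ℕ → SF, Chain P Q ∧
      (∀ (b : ℕ) (x : ℍ), cmp b F x = ((P b) x : ℂ) + ((Q b) x : ℂ) * Complex.I) ∧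
      (∀ (b : ℕ) (x : ℍ), cmp b (Lap F) x
        = ((Lap (P b)) x : ℂ) + ((Lap (Q b)) x : ℂ) * Complex.I) ∧
      (∀ x : ℍ, (P 0) x = avgI F x) ∧ Q 0 = 0 := by
  have kc : ∀ b : ℕ, Continuous fun t : ℝ => Real.cos ((b : ℝ) * t) := fun b =>
    Real.continuous_cos.comp (continuous_const.mul continuous_id)
  have ks : ∀ b : ℕ, Continuous fun t : ℝ => -Real.sin ((b : ℝ) * t) := fun b =>
    (Real.continuous_sin.comp (continuous_const.mul continuous_id)).neg
  choose P _ hP using fun b : ℕ => exists_av hM hF _ (kc b)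
  choose Q _ hQ using fun b : ℕ => exists_av hM hF _ (ks b)
  -- `h t = (H F)(x rot(i,t))`
  have hdx : ∀ (t : ℝ) (x : ℍ), (DX (rt t F)) x = -(Real.sin t * (DH F) (x * rot qI t)) := by
    intro t x
    rw [DX_rt, hX]
    simp only [sub_apply, smul_apply, rt_apply, zero_apply]
    ring
  have hdh : ∀ (t : ℝ) (x : ℍ), (DH (rt t F)) x = Real.cos t * (DH F) (x * rot qI t) := by
    intro t x
    rw [DH_rt, hX]
    simp only [add_apply, smul_apply, rt_apply, zero_apply]
    ring
  have hdv : ∀ (t : ℝ) (x : ℍ), (DV (rt t F)) x = (DV F) (x * rot qI t) := by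
    intro t x
    rw [DV_rt, rt_apply]
  have hlap : ∀ (t : ℝ) (x : ℍ), (Lap (rt t F)) x = (Lap F) (x * rot qI t) := by
    intro t x
    rw [Lap_rt, rt_apply]
  -- operator formulas
  have pX : ∀ (b : ℕ) (x : ℍ), (DX (P b)) x = (1 / (2 * π)) * ∫ t in (0:ℝ)..(2 * π),
      Real.cos (b * t) * -(Real.sin t * (DH F) (x * rot qI t)) := by
    intro b x
    have := hP b (DX : SF →ₗ[ℝ] SF) x
    simp only [Derivation.coeFn_coe, hdx] at this
    exact this
  have pH : ∀ (b : ℕ) (x : ℍ), (DH (P b)) x = (1 / (2 * π)) * ∫ t in (0:ℝ)..(2 * π),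
      Real.cos (b * t) * (Real.cos t * (DH F) (x * rot qI t)) := by
    intro b x
    have := hP b (DH : SF →ₗ[ℝ] SF) x
    simp only [Derivation.coeFn_coe, hdh] at this
    exact this
  have pV : ∀ (b : ℕ) (x : ℍ), (DV (P b)) x = (1 / (2 * π)) * ∫ t in (0:ℝ)..(2 * π),
      Real.cos (b * t) * (DV F) (x * rot qI t) := by
    intro b x
    have := hP b (DV : SF →ₗ[ℝ] SF) x
    simp only [Derivation.coeFn_coe, hdv] at this
    exact this
  have pL : ∀ (b : ℕ) (x : ℍ), (Lap (P b)) x = (1 / (2 * π)) * ∫ t in (0:ℝ)..(2 * π),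
      Real.cos (b * t) * (Lap F) (x * rot qI t) := by
    intro b x
    have := hP b Lap x
    simp only [hlap] at this
    exact this
  have pI : ∀ (b : ℕ) (x : ℍ), (P b) x = (1 / (2 * π)) * ∫ t in (0:ℝ)..(2 * π),
      Real.cos (b * t) * F (x * rot qI t) := by
    intro b x
    have := hP b LinearMap.id x
    simp only [LinearMap.id_apply, rt_apply] at this
    exact this
  have qX : ∀ (b : ℕ) (x : ℍ), (DX (Q b)) x = (1 / (2 * π)) * ∫ t in (0:ℝ)..(2 * π),
      -Real.sin (b * t) * -(Real.sin t * (DH F) (x * rot qI t)) := by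
    intro b x
    have := hQ b (DX : SF →ₗ[ℝ] SF) x
    simp only [Derivation.coeFn_coe, hdx] at this
    exact this
  have qH : ∀ (b : ℕ) (x : ℍ), (DH (Q b)) x = (1 / (2 * π)) * ∫ t in (0:ℝ)..(2 * π),
      -Real.sin (b * t) * (Real.cos t * (DH F) (x * rot qI t)) := by
    intro b x
    have := hQ b (DH : SF →ₗ[ℝ] SF) x
    simp only [Derivation.coeFn_coe, hdh] at this
    exact this
  have qV : ∀ (b : ℕ) (x : ℍ), (DV (Q b)) x = (1 / (2 * π)) * ∫ t in (0:ℝ)..(2 * π),
      -Real.sin (b * t) * (DV F) (x * rot qI t) := by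
    intro b x
    have := hQ b (DV : SF →ₗ[ℝ] SF) x
    simp only [Derivation.coeFn_coe, hdv] at this
    exact this
  have qL : ∀ (b : ℕ) (x : ℍ), (Lap (Q b)) x = (1 / (2 * π)) * ∫ t in (0:ℝ)..(2 * π),
      -Real.sin (b * t) * (Lap F) (x * rot qI t) := by
    intro b x
    have := hQ b Lap x
    simp only [hlap] at this
    exact this
  have qI' : ∀ (b : ℕ) (x : ℍ), (Q b) x = (1 / (2 * π)) * ∫ t in (0:ℝ)..(2 * π),
      -Real.sin (b * t) * F (x * rot qI t) := by
    intro b x
    have := hQ b LinearMap.id x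
    simp only [LinearMap.id_apply, rt_apply] at this
    exact this
  have hcont : ∀ x : ℍ, Continuous fun t => (DH F) (x * rot qI t) := continuous_flowI' (DH F)
  -- combination of two integrals of the above form
  have comb : ∀ (x : ℍ) (k₁ k₂ k₃ k₄ : ℝ → ℝ), Continuous k₁ → Continuous k₂ → Continuous k₃ →
      Continuous k₄ → (∀ t, k₁ t + k₂ t + (k₃ t + k₄ t) = 0) →
      ((1 / (2 * π)) * ∫ t in (0:ℝ)..(2 * π), k₁ t * (DH F) (x * rot qI t))
        + ((1 / (2 * π)) * ∫ t in (0:ℝ)..(2 * π), k₂ t * (DH F) (x * rot qI t))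
        = -(((1 / (2 * π)) * ∫ t in (0:ℝ)..(2 * π), k₃ t * (DH F) (x * rot qI t))
        + ((1 / (2 * π)) * ∫ t in (0:ℝ)..(2 * π), k₄ t * (DH F) (x * rot qI t))) := by
    intro x k₁ k₂ k₃ k₄ c₁ c₂ c₃ c₄ h0
    have i : ∀ k : ℝ → ℝ, Continuous k →
        IntervalIntegrable (fun t => k t * (DH F) (x * rot qI t)) volume 0 (2 * π) :=
      fun k hk => (hk.mul (hcont x)).intervalIntegrable _ _
    rw [← mul_add, ← mul_add, ← mul_neg, ← intervalIntegral.integral_add (i _ c₁) (i _ c₂),
      ← intervalIntegral.integral_add (i _ c₃) (i _ c₄), ← intervalIntegral.integral_neg]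
    congr 1
    apply intervalIntegral.integral_congr
    intro t _
    have := h0 t
    simp only
    linear_combination (DH F) (x * rot qI t) * this
  have cs : ∀ c : ℝ, Continuous fun t : ℝ => Real.sin (c * t) := fun c =>
    Real.continuous_sin.comp (continuous_const.mul continuous_id)
  have cc : ∀ c : ℝ, Continuous fun t : ℝ => Real.cos (c * t) := fun c =>
    Real.continuous_cos.comp (continuous_const.mul continuous_id)
  refine ⟨P, Q, ⟨?_, ?_, ?_, ?_⟩, ?_, ?_, ?_, ?_⟩
  · -- `V P = - b Q`
    intro b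
    apply ext'
    intro x hx
    rw [pV, neg_apply, smul_apply, qI']
    rw [parts F hx (fun t => Real.cos (b * t)) (fun t => -(Real.sin (b * t) * b))]
    · have : ∫ t in (0:ℝ)..(2 * π), -(Real.sin (b * t) * b) * F (x * rot qI t)
          = b * ∫ t in (0:ℝ)..(2 * π), -Real.sin (b * t) * F (x * rot qI t) := by
        rw [← intervalIntegral.integral_const_mul]
        congr 1; funext t; ring
      rw [this]; ring
    · intro t
      have h1 : HasDerivAt (fun t : ℝ => (b : ℝ) * t) b t := by
        simpa using (hasDerivAt_id t).const_mul (b : ℝ)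
      have h2 := h1.cos
      convert h2 using 1
      ring
    · exact ((cs b).mul continuous_const).neg
    · have : (b : ℝ) * (2 * π) = (b : ℕ) * (2 * π) := rfl
      rw [Real.cos_nat_mul_two_pi]; simp
  · intro b
    apply ext'
    intro x hx
    rw [qV, smul_apply, pI]
    rw [parts F hx (fun t => -Real.sin (b * t)) (fun t => -(Real.cos (b * t) * b))]
    · have : ∫ t in (0:ℝ)..(2 * π), -(Real.cos (b * t) * b) * F (x * rot qI t)
          = -(b * ∫ t in (0:ℝ)..(2 * π), Real.cos (b * t) * F (x * rot qI t)) := by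
        rw [← intervalIntegral.integral_const_mul, ← intervalIntegral.integral_neg]
        congr 1; funext t; ring
      rw [this]; ring
    · intro t
      have h1 : HasDerivAt (fun t : ℝ => (b : ℝ) * t) b t := by
        simpa using (hasDerivAt_id t).const_mul (b : ℝ)
      exact h1.sin.neg
    · exact ((cc b).mul continuous_const).neg
    · have h1 : Real.sin ((b : ℝ) * (2 * π)) = 0 := by
        have := Real.sin_nat_mul_pi (2 * b)
        rw [← this]; push_cast; congr 1; ring
      simp only [h1]; simp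
  · intro b
    apply ext'
    intro x _
    rw [add_apply, neg_apply, sub_apply, pX, qH, pX, qH]
    have h := comb x (fun t => -(Real.cos (b * t) * Real.sin t))
      (fun t => -(Real.sin (b * t) * Real.cos t))
      (fun t => -(Real.cos ((b + 2 : ℕ) * t) * Real.sin t))
      (fun t => (Real.sin ((b + 2 : ℕ) * t) * Real.cos t))
      ((cc _).mul Real.continuous_sin).neg ((cs _).mul Real.continuous_cos).neg
      ((cc _).mul Real.continuous_sin).neg ((cs _).mul Real.continuous_cos) (by
        intro t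
        have e : ((b + 2 : ℕ) : ℝ) * t = ((b : ℝ) * t + t) + t := by push_cast; ring
        have e2 : (b : ℝ) * t + t = (b : ℝ) * t + t := rfl
        have h1 : Real.sin ((b : ℝ) * t + t) = Real.sin (((b : ℝ) * t + t) + t - t) := by
          congr 1; ring
        rw [e]
        have h3 := Real.sin_sub (((b : ℝ) * t + t) + t) t
        have h4 := Real.sin_add ((b : ℝ) * t) t
        rw [← h1] at h3
        linarith)
    have r : ∀ k : ℕ, (∫ t in (0:ℝ)..(2 * π), Real.cos (k * t) * -(Real.sin t * (DH F) (x * rot qI t)))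
        = ∫ t in (0:ℝ)..(2 * π), -(Real.cos (k * t) * Real.sin t) * (DH F) (x * rot qI t) := by
      intro k; congr 1; funext t; ring
    have r2 : (∫ t in (0:ℝ)..(2 * π), -Real.sin (b * t) * (Real.cos t * (DH F) (x * rot qI t)))
        = ∫ t in (0:ℝ)..(2 * π), -(Real.sin (b * t) * Real.cos t) * (DH F) (x * rot qI t) := by
      congr 1; funext t; ring
    have r3 : (∫ t in (0:ℝ)..(2 * π), -Real.sin ((b + 2 : ℕ) * t) *
        (Real.cos t * (DH F) (x * rot qI t)))
        = -∫ t in (0:ℝ)..(2 * π), (Real.sin ((b + 2 : ℕ) * t) * Real.cos t) *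
          (DH F) (x * rot qI t) := by
      rw [← intervalIntegral.integral_neg]; congr 1; funext t; ring
    rw [r, r, r2, r3, h]
    ring
  · intro b
    apply ext'
    intro x _
    rw [sub_apply, neg_apply, add_apply, qX, pH, qX, pH]
    have h := comb x (fun t => (Real.sin (b * t) * Real.sin t))
      (fun t => -(Real.cos (b * t) * Real.cos t))
      (fun t => (Real.sin ((b + 2 : ℕ) * t) * Real.sin t))
      (fun t => (Real.cos ((b + 2 : ℕ) * t) * Real.cos t))
      ((cs _).mul Real.continuous_sin) ((cc _).mul Real.continuous_cos).neg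
      ((cs _).mul Real.continuous_sin) ((cc _).mul Real.continuous_cos) (by
        intro t
        have e : ((b + 2 : ℕ) : ℝ) * t = ((b : ℝ) * t + t) + t := by push_cast; ring
        have h1 : Real.cos ((b : ℝ) * t + t) = Real.cos (((b : ℝ) * t + t) + t - t) := by
          congr 1; ring
        rw [e]
        have h3 := Real.cos_sub (((b : ℝ) * t + t) + t) t
        have h4 := Real.cos_add ((b : ℝ) * t) t
        rw [← h1] at h3
        linarith)
    have r : ∀ k : ℕ, (∫ t in (0:ℝ)..(2 * π), -Real.sin (k * t) *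
        -(Real.sin t * (DH F) (x * rot qI t)))
        = ∫ t in (0:ℝ)..(2 * π), (Real.sin (k * t) * Real.sin t) * (DH F) (x * rot qI t) := by
      intro k; congr 1; funext t; ring
    have r2 : (∫ t in (0:ℝ)..(2 * π), Real.cos (b * t) * (Real.cos t * (DH F) (x * rot qI t)))
        = -∫ t in (0:ℝ)..(2 * π), -(Real.cos (b * t) * Real.cos t) * (DH F) (x * rot qI t) := by
      rw [← intervalIntegral.integral_neg]; congr 1; funext t; ring
    have r3 : (∫ t in (0:ℝ)..(2 * π), Real.cos ((b + 2 : ℕ) * t) *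
        (Real.cos t * (DH F) (x * rot qI t)))
        = ∫ t in (0:ℝ)..(2 * π), (Real.cos ((b + 2 : ℕ) * t) * Real.cos t) *
          (DH F) (x * rot qI t) := by
      congr 1; funext t; ring
    rw [r, r, r2, r3, ← h]
    ring
  · intro b x
    rw [cmp_eq b F x (continuous_flowI' F x), pI, qI']
    congr 3
    rw [← mul_neg, ← intervalIntegral.integral_neg]
    simp only [neg_mul]
    rfl
  · intro b x
    rw [cmp_eq b (Lap F) x (continuous_flowI' (Lap F) x), pL, qL]
    congr 3
    rw [← mul_neg, ← intervalIntegral.integral_neg]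
    simp only [neg_mul]
    rfl
  · intro x
    rw [pI, avgI]
    congr 1
    apply intervalIntegral.integral_congr
    intro t _
    simp
  · apply ext'
    intro x _
    rw [qI', zero_apply]
    simp

end Pool.Agent.MP85963d.H32
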