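import Mathlib
import Pool.Agent.Lib.MP_85963d_gt.H32.CmpChain
import Pool.Agent.Lib.MP_85963d_gt.H79.Avg

/-!
# The shift lemma (3.4)
-/

set_option autoImplicit false

open MeasureTheory Set Filter Topology Quaternion
open scoped Real ContDiff

namespace Pool.Agent.MP85963d.H32

open SF

/-- the weight component of `w` may be replaced by `w` -/
theorem reduce (w F : SF) (a b : ℤ) :
    ∫ x in shell, cmp (b - a) w x * cmp a F x * (starRingEnd ℂ) (cmp b F x)
      = ∫ x in shell, (cmp a F x * (starRingEnd ℂ) (cmp b F x)) * (w x : ℂ) := by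
  have hF := H79.cts_SF F
  have h := H79.integral_cmp (b := a - b)
    (c := fun x => cmp a F x * (starRingEnd ℂ) (cmp b F x))
    ((H79.continuousOn_cmp a hF.cont).mul
      ((continuous_star (R := ℂ)).comp_continuousOn (H79.continuousOn_cmp b hF.cont)))
    (by
      intro x hx s
      rw [H79.conj_cmp, H79.conj_cmp, H79.cmp_rot a hF hx s, H79.cmp_rot (-b) hF hx s]
      have e : Complex.exp (((a - b : ℤ) : ℂ) * s * Complex.I)
          = Complex.exp (a * s * Complex.I) * Complex.exp (((-b : ℤ) : ℂ) * s * Complex.I) := by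
        rw [← Complex.exp_add]; congr 1; push_cast; ring
      rw [e]; ring)
    (F := w) w.continuousOn
  rw [← h]
  congr 1
  funext x
  rw [H79.conj_cmp (a - b) w x, neg_sub]
  ring

/-- the integral in real terms -/
theorem integral_real (w P Q S T : SF) :
    ∫ x in shell, (((P x : ℂ) + (Q x : ℂ) * Complex.I)
        * (starRingEnd ℂ) ((S x : ℂ) + (T x : ℂ) * Complex.I)) * (w x : ℂ)
      = (Rw w P Q S T : ℂ) + (Rw w Q (-P) S T : ℂ) * Complex.I := by
  have e : ∀ x : ℍ, (((P x : ℂ) + (Q x : ℂ) * Complex.I)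
        * (starRingEnd ℂ) ((S x : ℂ) + (T x : ℂ) * Complex.I)) * (w x : ℂ)
      = ((w x * P x * S x + w x * Q x * T x : ℝ) : ℂ)
        + ((w x * Q x * S x - w x * P x * T x : ℝ) : ℂ) * Complex.I := by
    intro x
    simp only [map_add, map_mul, Complex.conj_ofReal, Complex.conj_I]
    push_cast
    ring_nf
    rw [Complex.I_sq]
    ring
  have i1 : ∀ F G : SF, IntegrableOn (fun x => w x * F x * G x) shell := fun F G =>
    integrableOn_shell ((w.continuousOn.mul F.continuousOn).mul G.continuousOn)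
  have r1 : Rw w P Q S T = ∫ x in shell, (w x * P x * S x + w x * Q x * T x) := by
    rw [integral_add (i1 P S) (i1 Q T)]
    simp only [Rw, ipB_apply, ip, mul_apply]
  have r2 : Rw w Q (-P) S T = ∫ x in shell, (w x * Q x * S x - w x * P x * T x) := by
    rw [integral_sub (i1 Q S) (i1 P T)]
    simp only [Rw, ipB_apply, ip, mul_apply, neg_apply, mul_neg, neg_mul, integral_neg]
    ring
  simp only [e]
  rw [integral_add, integral_mul_const, integral_complex_ofReal, integral_complex_ofReal,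
    ← r1, ← r2]
  · exact ((i1 P S).add (i1 Q T)).ofReal
  · exact (((i1 Q S).sub (i1 P T)).ofReal).mul_const _

theorem Chain.rotate {P Q : ℕ → SF} (h : Chain P Q) : Chain Q (fun b => -P b) where
  vP b := by rw [h.vQ, smul_neg, neg_neg]
  vQ b := by rw [map_neg, h.vP, neg_neg]
  r1 b := by
    have := h.r2 b
    rw [map_neg, map_neg, ← sub_eq_add_neg, sub_neg_eq_add]
    exact this
  r2 b := by
    have := h.r1 b
    simp only [map_neg]
    have h1 := congrArg Neg.neg this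
    rw [neg_add] at h1
    rw [← sub_eq_add_neg, ← neg_sub] at *
    apply ext'
    intro x hx
    have h2 := congrArg (fun F : SF => F x) this
    simp only [add_apply, neg_apply, sub_apply] at h2 ⊢
    linarith

theorem nrm1_sq (y : SF) : nrm1 y ^ 2 = -(ip (Lap y) y) := by
  have h : -(ip (Lap y) y) = ∑ a : Fin 3, ipB (DZ a y) (DZ a y) := by
    have h1 : ∀ a : Fin 3, ipB (DZ a y) (DZ a y) = - ipB (DZ a (DZ a y)) y := by
      intro a
      have := ip_DZ a (DZ a y) y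
      rw [ipB_apply, ipB_apply, this, neg_neg]
    have h2 : ip (Lap y) y = ∑ a : Fin 3, ipB (DZ a (DZ a y)) y := by
      rw [← ipB_apply, Lap_eq, Fin.sum_univ_three]
      simp only [map_add, LinearMap.add_apply]
    rw [h2, ← Finset.sum_neg_distrib]
    exact Finset.sum_congr rfl fun a _ => (h1 a).symm
  rw [nrm1, Real.sq_sqrt]
  rw [h]
  exact Finset.sum_nonneg fun a _ => ipB_self_nonneg _

theorem shift_of (hC : CasFacts) (hM : MNFacts) (hP : PsiFacts) : ShiftStatement := by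
  intro a b ha hb
  obtain ⟨C, hC0, hCb⟩ := shift_real hC a b ha hb
  refine ⟨2 * C, ?_⟩
  intro B w _ hBd n χ hχ
  have hw : ∀ x : ℍ, |w x| ≤ B := hBd [] (by simp)
  have hwX : ∀ x : ℍ, |(DX w) x| ≤ B := hBd [0] (by simp)
  have hwH : ∀ x : ℍ, |(DH w) x| ≤ B := hBd [2] (by simp)
  have hB : 0 ≤ B := (abs_nonneg _).trans (hw 0)
  set F := psi χ with hF
  have hFE := hP.mem n χ hχ
  obtain ⟨P, Q, hch, hc1, hc2, hP0, hQ0⟩ := exists_chain hM hFE.1 (DX_of_isE hFE.2)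
  have hP0' : P 0 = χ := by
    apply ext'
    intro x hx
    rw [hP0]; exact hP.avg n χ hχ x hx
  have hd1 : D1 (P 0) (Q 0) ≤ nrm1 χ ^ 2 := by
    rw [hP0', hQ0, nrm1_sq, D1]
    simp [ipB_apply]
  have hd2 : D2 (P 0) (Q 0) ≤ nrm (Lap χ) ^ 2 := by
    rw [hP0', hQ0, D2, ← ipB_self]
    simp
  have hd1' : D1 (Q 0) (-P 0) ≤ nrm1 χ ^ 2 := by
    have h0 : ipB (Lap (-χ)) (-χ) = ipB (Lap χ) χ := by
      simp only [map_neg, LinearMap.neg_apply, neg_neg]
    rw [hP0', hQ0, nrm1_sq, D1, h0]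
    simp [ipB_apply]
  have hd2' : D2 (Q 0) (-P 0) ≤ nrm (Lap χ) ^ 2 := by
    rw [hP0', hQ0, D2, ← ipB_self]
    simp
  have hn1 : 0 ≤ nrm1 χ := Real.sqrt_nonneg _
  have b1 := hCb B w hw hwX hwH P Q P Q (nrm1 χ) (nrm (Lap χ)) hch hch hn1 (nrm_nonneg _)
    hd1 hd2 hd1 hd2
  have b2 := hCb B w hw hwX hwH Q (fun b => -P b) P Q (nrm1 χ) (nrm (Lap χ)) hch.rotate hch hn1
    (nrm_nonneg _) hd1' hd2' hd1 hd2
  have e1 : ((b : ℤ) - (a : ℤ)) = ((b : ℤ) + 2) - ((a : ℤ) + 2) := by ring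
  have c1 : ∀ x : ℍ, cmp ((a : ℤ) + 2) (Lap F) x
      = ((Lap (P (a + 2))) x : ℂ) + ((Lap (Q (a + 2))) x : ℂ) * Complex.I := by
    intro x; have := hc2 (a + 2) x; push_cast at this; exact this
  have c2 : ∀ x : ℍ, cmp ((b : ℤ) + 2) (Lap F) x
      = ((Lap (P (b + 2))) x : ℂ) + ((Lap (Q (b + 2))) x : ℂ) * Complex.I := by
    intro x; have := hc2 (b + 2) x; push_cast at this; exact this
  have c3 : ∀ x : ℍ, cmp (a : ℤ) (Lap F) x
      = ((Lap (P a)) x : ℂ) + ((Lap (Q a)) x : ℂ) * Complex.I := fun x => hc2 a x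
  have c4 : ∀ x : ℍ, cmp (b : ℤ) (Lap F) x
      = ((Lap (P b)) x : ℂ) + ((Lap (Q b)) x : ℂ) * Complex.I := fun x => hc2 b x
  have I1 : (∫ x in shell, cmp ((b : ℤ) - (a : ℤ)) w x * cmp ((a : ℤ) + 2) (Lap F) x
          * (starRingEnd ℂ) (cmp ((b : ℤ) + 2) (Lap F) x))
      = (Rw w (Lap (P (a + 2))) (Lap (Q (a + 2))) (Lap (P (b + 2))) (Lap (Q (b + 2))) : ℂ)
        + (Rw w (Lap (Q (a + 2))) (-(Lap (P (a + 2)))) (Lap (P (b + 2))) (Lap (Q (b + 2))) : ℂ)
          * Complex.I := by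
    rw [e1, reduce w (Lap F) ((a : ℤ) + 2) ((b : ℤ) + 2)]
    simp only [c1, c2]
    exact integral_real _ _ _ _ _
  have I2 : (∫ x in shell, cmp ((b : ℤ) - (a : ℤ)) w x * cmp (a : ℤ) (Lap F) x
          * (starRingEnd ℂ) (cmp (b : ℤ) (Lap F) x))
      = (Rw w (Lap (P a)) (Lap (Q a)) (Lap (P b)) (Lap (Q b)) : ℂ)
        + (Rw w (Lap (Q a)) (-(Lap (P a))) (Lap (P b)) (Lap (Q b)) : ℂ) * Complex.I := by
    rw [reduce w (Lap F) (a : ℤ) (b : ℤ)]
    simp only [c3, c4]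
    exact integral_real _ _ _ _ _
  rw [I1, I2]
  have hn : ∀ k : ℕ, Lap (-P k) = -(Lap (P k)) := fun k => map_neg _ _
  rw [hn, hn] at b2
  generalize Rw w (Lap (P (a + 2))) (Lap (Q (a + 2))) (Lap (P (b + 2))) (Lap (Q (b + 2))) = r1 at *
  generalize Rw w (Lap (Q (a + 2))) (-(Lap (P (a + 2)))) (Lap (P (b + 2))) (Lap (Q (b + 2)))
    = r2 at *
  generalize Rw w (Lap (P a)) (Lap (Q a)) (Lap (P b)) (Lap (Q b)) = r3 at *
  generalize Rw w (Lap (Q a)) (-(Lap (P a))) (Lap (P b)) (Lap (Q b)) = r4 at *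
  have e2 : ((r1 : ℂ) + (r2 : ℂ) * Complex.I) - ((r3 : ℂ) + (r4 : ℂ) * Complex.I)
      = ((r1 - r3 : ℝ) : ℂ) + ((r2 - r4 : ℝ) : ℂ) * Complex.I := by push_cast; ring
  rw [e2]
  refine (norm_add_le _ _).trans ?_
  rw [norm_mul, Complex.norm_real, Complex.norm_real, Complex.norm_I, mul_one, Real.norm_eq_abs,
    Real.norm_eq_abs]
  refine (add_le_add b1 b2).trans ?_
  have h3 : C * B * ((nrm1 χ + nrm (Lap χ)) * nrm1 χ)
      ≤ C * B * ((nrm (Lap χ) + nrm1 χ) * (nrm1 χ + nrm χ)) := by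
    have h4 : 0 ≤ nrm χ := nrm_nonneg _
    have h5 : 0 ≤ nrm (Lap χ) := nrm_nonneg _
    apply mul_le_mul_of_nonneg_left _ (mul_nonneg hC0 hB)
    rw [add_comm (nrm1 χ) (nrm (Lap χ))]
    apply mul_le_mul_of_nonneg_left _ (by linarith)
    linarith
  calc _ ≤ C * B * ((nrm (Lap χ) + nrm1 χ) * (nrm1 χ + nrm χ))
        + C * B * ((nrm (Lap χ) + nrm1 χ) * (nrm1 χ + nrm χ)) := add_le_add h3 h3
    _ = _ := by ring

end Pool.Agent.MP85963d.H32
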